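import Pool.Agent.Q156.Matchings12

/-!
# MP_3f0bb6_co, Q1: a non-trivial `(3,3)`-factorisation of `K_12`

For `n = 6` we give a set of `462` perfect matchings of `K_12` such that every partition of the
twelve points into two sets of size six is refined by exactly ten of them.
-/

namespace Pool.Agent.Results.MP_3f0bb6_co.ThreeThree

open Finset Q156.Matchings12

/-- `m` is (the edge set of) a perfect matching of the complete graph on `Fin N`: its members are
`2`-sets and every vertex is in exactly one of them. -/
def IsPerfectMatching {N : ℕ} (m : Finset (Finset (Fin N))) : Prop :=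
  (∀ e ∈ m, e.card = 2) ∧ ∀ x : Fin N, ∃! e, e ∈ m ∧ x ∈ e

/-- `m` refines the partition `{S, Sᶜ}`: every edge of `m` lies inside `S` or inside `Sᶜ`. -/
def Refines {N : ℕ} (m : Finset (Finset (Fin N))) (S : Finset (Fin N)) : Prop :=
  ∀ e ∈ m, e ⊆ S ∨ e ⊆ Sᶜ

/-- `D` is an `(n-3, 3)`-factorisation of `K_{2n}` of index `c`: a non-empty set of perfect
matchings such that every partition of the `2n` points into a part of size `6` and a part of size
`2(n-3)` is refined by exactly `c` members of `D`. -/
def IsFactorisation (n : ℕ) (D : Finset (Finset (Finset (Fin (2 * n))))) (c : ℕ) : Prop :=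
  D.Nonempty ∧ (∀ m ∈ D, IsPerfectMatching m) ∧ 0 < c ∧
    ∀ S : Finset (Fin (2 * n)), S.card = 6 → {m | m ∈ D ∧ Refines m S}.ncard = c

/-! ### Decoding -/

/-- partner of `x` in the matching coded by `c` -/
def f (c : ℕ) (x : Fin 12) : Fin 12 := Fin.ofNat 12 ((c >>> (4 * x.val)) % 16)

/-- the code of a function -/
def enc (g : Fin 12 → Fin 12) : ℕ := ((List.finRange 12).map fun x => (g x).val <<< (4 * x.val)).sum

/-- masks of the edges -/
def masks (c : ℕ) : List ℕ :=
  ((List.finRange 12).filter fun x => decide (x < f c x)).map fun x => 2 ^ x.val ||| 2 ^ (f c x).val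

set_option maxRecDepth 1000000 in
lemma inv_codes : ∀ c ∈ codes, ∀ x : Fin 12, f c (f c x) = x ∧ f c x ≠ x := by decide +kernel

set_option maxRecDepth 1000000 in
lemma enc_codes : ∀ c ∈ codes, enc (f c) = c := by decide +kernel

set_option maxRecDepth 1000000 in
lemma masks_codes : codes.map masks = LM := by decide +kernel

set_option maxRecDepth 1000000 in
lemma sorted_codes : codes.Pairwise (· < ·) := by
  rw [← List.isChain_iff_pairwise]
  decide +kernel

/-- the edge set coded by `c` -/
def mOf (c : ℕ) : Finset (Finset (Fin 12)) := univ.image fun x => {x, f c x}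

lemma mOf_perfect {c : ℕ} (h : ∀ x : Fin 12, f c (f c x) = x ∧ f c x ≠ x) :
    IsPerfectMatching (mOf c) := by
  constructor
  · intro e he
    obtain ⟨x, -, rfl⟩ := Finset.mem_image.1 he
    exact Finset.card_pair (h x).2.symm
  · intro x
    refine ⟨{x, f c x}, ⟨Finset.mem_image_of_mem _ (Finset.mem_univ x), by simp⟩, ?_⟩
    rintro e ⟨he, hx⟩
    obtain ⟨y, -, rfl⟩ := Finset.mem_image.1 he
    simp only [Finset.mem_insert, Finset.mem_singleton] at hx
    rcases hx with rfl | hx
    · rfl
    · rw [hx, (h y).1]
      exact Finset.pair_comm _ _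

lemma f_eq {c c' : ℕ} (hc : ∀ x : Fin 12, f c (f c x) = x ∧ f c x ≠ x)
    (hc' : ∀ x : Fin 12, f c' (f c' x) = x ∧ f c' x ≠ x) (h : mOf c = mOf c') : f c = f c' := by
  funext x
  have hx : ({x, f c x} : Finset (Fin 12)) ∈ mOf c' := by
    rw [← h]
    exact Finset.mem_image_of_mem _ (Finset.mem_univ x)
  obtain ⟨y, -, hy⟩ := Finset.mem_image.1 hx
  have h1 : x ∈ ({y, f c' y} : Finset (Fin 12)) := by rw [hy]; simp
  have h2 : f c x ∈ ({y, f c' y} : Finset (Fin 12)) := by rw [hy]; simp
  have i1 := hc x
  have i2 := hc' y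
  simp only [Finset.mem_insert, Finset.mem_singleton] at h1 h2
  rcases h1 with rfl | h1 <;> rcases h2 with h2 | h2
  · exact absurd h2 i1.2
  · exact h2
  · rw [h2, h1, i2.1]
  · rw [← h1] at h2
    exact absurd h2 i1.2

lemma mOf_inj {c c' : ℕ} (hc : c ∈ codes) (hc' : c' ∈ codes) (h : mOf c = mOf c') : c = c' := by
  rw [← enc_codes c hc, ← enc_codes c' hc', f_eq (inv_codes c hc) (inv_codes c' hc') h]

/-- code of a set -/
def code (S : Finset (Fin 12)) : ℕ := Nat.ofBits fun i : Fin 12 => decide (i ∈ S)

lemma testBit_code (S : Finset (Fin 12)) (i : Fin 12) : (code S).testBit i.val = decide (i ∈ S) := by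
  unfold code
  rw [Nat.testBit_ofBits_lt _ _ i.2]

lemma code_lt (S : Finset (Fin 12)) : code S < 4096 := Nat.ofBits_lt_two_pow _

lemma popc_code (S : Finset (Fin 12)) : popc (code S) = S.card := by
  unfold popc
  have h1 : List.range 12 = (List.finRange 12).map Fin.val := by decide
  rw [h1, List.filter_map, List.length_map]
  have h2 : (List.finRange 12).filter ((fun i => Nat.testBit (code S) i) ∘ Fin.val)
      = (List.finRange 12).filter (fun i => decide (i ∈ S)) := by
    apply List.filter_congr
    intro i _
    exact testBit_code S i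
  rw [h2]
  have h3 : S = ((List.finRange 12).filter (fun i => decide (i ∈ S))).toFinset := by
    ext i; simp
  conv_rhs => rw [h3]
  rw [List.toFinset_card_of_nodup]
  exact (List.nodup_finRange 12).filter _

lemma edge_iff (S : Finset (Fin 12)) (x y : Fin 12) (hxy : x ≠ y) :
    (Nat.beq (Nat.land (code S) (2 ^ x.val ||| 2 ^ y.val)) 0 ||
      Nat.beq (Nat.land (code S) (2 ^ x.val ||| 2 ^ y.val)) (2 ^ x.val ||| 2 ^ y.val)) = true ↔
      (x ∈ S ↔ y ∈ S) := by
  have e1 : Nat.land (code S) (2 ^ x.val ||| 2 ^ y.val) = code S &&& (2 ^ x.val ||| 2 ^ y.val) := rfl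
  have e2 : code S &&& (2 ^ x.val ||| 2 ^ y.val)
      = (decide (x ∈ S)).toNat * 2 ^ x.val ||| (decide (y ∈ S)).toNat * 2 ^ y.val := by
    rw [Nat.and_or_distrib_left, Nat.and_two_pow, Nat.and_two_pow, testBit_code, testBit_code]
  rw [e1, e2, Bool.or_eq_true, Nat.beq_eq, Nat.beq_eq]
  have t : ∀ i j : ℕ, Nat.testBit (2 ^ i) j = decide (i = j) := fun i j => Nat.testBit_two_pow
  have hne : x.val ≠ y.val := fun h => hxy (Fin.ext h)
  have hx0 : 2 ^ x.val ≠ 0 := by positivity
  have hy0 : 2 ^ y.val ≠ 0 := by positivity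
  by_cases hx : x ∈ S <;> by_cases hy : y ∈ S
  · simp [hx, hy]
  · refine iff_of_false ?_ (by tauto)
    simp only [hx, hy, decide_true, decide_false, Bool.toNat_true, Bool.toNat_false, one_mul,
      zero_mul, Nat.or_zero]
    rintro (h | h)
    · exact hx0 h
    · have := congrArg (fun n => Nat.testBit n y.val) h
      simp [Nat.testBit_or, t, hne] at this
  · refine iff_of_false ?_ (by tauto)
    simp only [hx, hy, decide_true, decide_false, Bool.toNat_true, Bool.toNat_false, one_mul,
      zero_mul, Nat.zero_or]
    rintro (h | h)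
    · exact hy0 h
    · have := congrArg (fun n => Nat.testBit n x.val) h
      simp [Nat.testBit_or, t, hne.symm] at this
  · simp [hx, hy]

lemma refines_iff {c : ℕ} (h : ∀ x : Fin 12, f c (f c x) = x ∧ f c x ≠ x) (S : Finset (Fin 12)) :
    Refines (mOf c) S ↔ ok (code S) (masks c) = true := by
  have h1 : Refines (mOf c) S ↔ ∀ x, (x ∈ S ↔ f c x ∈ S) := by
    constructor
    · intro hr x
      rcases hr {x, f c x} (Finset.mem_image_of_mem _ (Finset.mem_univ x)) with hs | hs
      · have a1 : x ∈ S := hs (by simp)
        have a2 : f c x ∈ S := hs (by simp)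
        tauto
      · have a1 : x ∈ Sᶜ := hs (by simp)
        have a2 : f c x ∈ Sᶜ := hs (by simp)
        rw [Finset.mem_compl] at a1 a2
        tauto
    · intro hr e he
      obtain ⟨x, -, rfl⟩ := Finset.mem_image.1 he
      have hx := hr x
      by_cases hxS : x ∈ S
      · left
        intro z hz
        simp only [Finset.mem_insert, Finset.mem_singleton] at hz
        rcases hz with rfl | rfl
        · exact hxS
        · exact hx.1 hxS
      · right
        intro z hz
        simp only [Finset.mem_insert, Finset.mem_singleton] at hz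
        rw [Finset.mem_compl]
        rcases hz with rfl | rfl
        · exact hxS
        · exact fun h => hxS (hx.2 h)
  rw [h1]
  unfold ok masks
  rw [List.all_map, List.all_eq_true]
  simp only [List.mem_filter, List.mem_finRange, true_and, decide_eq_true_eq, Function.comp_apply]
  constructor
  · intro hx x hlt
    rw [edge_iff S _ _ (h x).2.symm]
    exact hx x
  · intro hx x
    rcases lt_trichotomy x (f c x) with hlt | heq | hgt
    · have := hx x hlt
      rwa [edge_iff S _ _ (h x).2.symm] at this
    · exact absurd heq.symm (h x).2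
    · have h2 : f c x < f c (f c x) := by rw [(h x).1]; exact hgt
      have := hx (f c x) h2
      rw [edge_iff S _ _ (h (f c x)).2.symm, (h x).1] at this
      exact this.symm

/-- the set of matchings -/
def D : Finset (Finset (Finset (Fin 12))) := codes.toFinset.image mOf

lemma nodup_codes : codes.Nodup := sorted_codes.imp fun h => ne_of_lt h

lemma count_D (S : Finset (Fin 12)) (hS : S.card = 6) : {m | m ∈ D ∧ Refines m S}.ncard = 10 := by
  classical
  have h1 : {m | m ∈ D ∧ Refines m S} = (((codes.toFinset.filter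
      fun c => ok (code S) (masks c) = true).image mOf : Finset _) : Set _) := by
    ext m
    simp only [D, Finset.mem_image, Set.mem_ofPred_eq, Finset.coe_image, Set.mem_image,
      Finset.coe_filter, List.mem_toFinset]
    constructor
    · rintro ⟨⟨c, hc, rfl⟩, hr⟩
      exact ⟨c, ⟨hc, (refines_iff (inv_codes c hc) S).1 hr⟩, rfl⟩
    · rintro ⟨c, ⟨hc, hr⟩, rfl⟩
      exact ⟨⟨c, hc, rfl⟩, (refines_iff (inv_codes c hc) S).2 hr⟩
  rw [h1, Set.ncard_coe_finset, Finset.card_image_of_injOn]
  · have h2 : (codes.toFinset.filter fun c => ok (code S) (masks c) = true)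
        = (codes.filter fun c => ok (code S) (masks c)).toFinset := by
      ext c; simp
    rw [h2, List.toFinset_card_of_nodup (nodup_codes.filter _), ← List.countP_eq_length_filter]
    have h3 : codes.countP (fun c => ok (code S) (masks c)) = LM.countP (ok (code S)) := by
      rw [← masks_codes, List.countP_map]
      rfl
    rw [h3]
    have h4 := check_all
    rw [List.all_eq_true] at h4
    have h5 := h4 (code S) (List.mem_range.2 (code_lt S))
    unfold check at h5
    rw [popc_code, hS, Bool.or_eq_true] at h5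
    rcases h5 with h5 | h5
    · simp at h5
    · exact Nat.eq_of_beq_eq_true h5
  · intro c hc c' hc' h
    simp only [Finset.coe_filter, List.mem_toFinset, Set.mem_ofPred_eq] at hc hc'
    exact mOf_inj hc.1 hc'.1 h

set_option maxRecDepth 1000000 in
lemma inv_c0 : ∀ x : Fin 12, f 188606631453441 (f 188606631453441 x) = x ∧ f 188606631453441 x ≠ x := by decide +kernel

set_option maxRecDepth 1000000 in
lemma enc_c0 : enc (f 188606631453441) = 188606631453441 := by decide +kernel

set_option maxRecDepth 1000000 in
lemma not_mem_c0 : 188606631453441 ∉ codes := by decide +kernel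

/-- **Positive answer to Q1**: `K_12` has a non-trivial `(3,3)`-factorisation (of index `10`). -/
theorem result : ∃ (n : ℕ) (D : Finset (Finset (Finset (Fin (2 * n))))) (c : ℕ), 6 ≤ n ∧
    IsFactorisation n D c ∧ ∃ m, IsPerfectMatching m ∧ m ∉ D := by
  refine ⟨6, D, 10, le_refl _, ⟨?_, ?_, by norm_num, count_D⟩, ?_⟩
  · exact ⟨mOf 1264204335531, Finset.mem_image_of_mem _ (List.mem_toFinset.2 (by decide +kernel))⟩
  · intro m hm
    obtain ⟨c, hc, rfl⟩ := Finset.mem_image.1 hm
    exact mOf_perfect (inv_codes c (List.mem_toFinset.1 hc))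
  · refine ⟨mOf 188606631453441, mOf_perfect inv_c0, ?_⟩
    intro hm
    obtain ⟨c, hc, hcc⟩ := Finset.mem_image.1 hm
    have hc' := List.mem_toFinset.1 hc
    have h1 := f_eq (inv_codes c hc') inv_c0 hcc
    have h2 : c = 188606631453441 := by rw [← enc_codes c hc', h1, enc_c0]
    rw [h2] at hc'
    exact not_mem_c0 hc'

end Pool.Agent.Results.MP_3f0bb6_co.ThreeThree
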